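import Pool.Agent.R118.Spr.Glue
import Pool.Agent.R118.Spr.C
import Pool.Agent.R118.Spr.D

/-!
# The spread-global dimension of a total order times a finite poset (Q1 and Q2: yes)

Let `Q` be a finite poset. There is a number `N`, depending only on `Q`, such that for every total
order `T`, every field `k` and every poset `P` isomorphic to the product `T × Q` (product order)
every finitely presented representation of `P` over `k` has a spread-resolution of length at most
`N`. In particular every finitely presented representation of `T × Q` has a finite
spread-resolution (Q1), and the spread-global dimension of `T × Q` is finite (Q2); the bound is
uniform in `T`.

Idea of the proof. The representation `M` is *aligned* to a finite set `C ⊆ T`: the structure maps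
in the direction of `T` that cross no element of `C` are isomorphisms. There are only finitely many
spreads aligned to `C`, and every map from a convex set representation to `M` factors through
an aligned convex set (the aligned hull). A ranking of the aligned spreads (by the position of the
first grid point of the spread and the height of the spread at this grid point) shows that the
modules of finite length over the endomorphism ring of the sum of all aligned spread
representations have finite projective dimension, bounded in terms of the cardinality of `C` and
`Q`. To get a bound which does not depend on `C` we use right almost split maps: for an aligned
spread `S` the map from the sum of the representations of the sets `S` minus a minimal block and of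
the sets obtained from `S` by adding a minimal block above `S`. All these sets are aligned to a
subset of `C` with at most `4 |Q| + 1` elements.
-/

open CategoryTheory Limits

universe u

namespace Pool.Agent.Results.MP_467d59_al.UniformSpreadGlobalDim

/-- For every finite poset `Q` there is `N` such that every finitely presented representation of
`T × Q`, `T` any total order, over any field, has a spread-resolution of length at most `N`. -/
theorem result (Q : Type u) [PartialOrder Q] [Finite Q] :
    ∃ N : ℕ, ∀ (k : Type u) [Field k] (T P : Type u) [LinearOrder T] [PartialOrder P]
      (_ : P ≃o T × Q) (M : P ⥤ ModuleCat.{u} k),
      R118.Spr.IsFP k M → Nonempty (R118.Spr.SpreadResolution k M N) :=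
  ⟨R118.Spr.rho (Nat.card Q) + 2, fun k _ _ P _ _ e M hM =>
    R118.Spr.uniform (e := e) (R118.Spr.stmtA1 (k := k) (A := P ⥤ ModuleCat.{u} k))
      (R118.Spr.stmtA2 (k := k) (A := P ⥤ ModuleCat.{u} k))
      (R118.Spr.stmtB1 (k := k) (A := P ⥤ ModuleCat.{u} k))
      (fun C => R118.Spr.stmtD e C) M hM⟩

end Pool.Agent.Results.MP_467d59_al.UniformSpreadGlobalDim
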